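import Pool.Agent.helper12.TY.Spec

set_option autoImplicit false

namespace Pool.Agent.TY

open Pool.Agent.helper58.DC Pool.Agent.DI Pool.Agent.GR Pool.Agent.OB Pool.Agent.TZ

theorem YWO_conj (p : ℕ) {G : Type} [Group G] (g : G) :
    conjugatesOf (dg p g) = (WX p G).inc '' conjugatesOf (fun _ : Tp p => g) := by
  ext y
  constructor
  · intro hy
    have hy' : IsConj (dg p g) y := hy
    obtain ⟨c, hc⟩ := isConj_iff.1 hy'
    refine ⟨fun s => c.f (c.l⁻¹ • s) * g * (c.f (c.l⁻¹ • s))⁻¹, ?_, ?_⟩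
    · exact (isConj_iff.2 ⟨fun s => c.f (c.l⁻¹ • s), rfl⟩ : IsConj (fun _ : Tp p => g) _)
    · rw [← hc]
      ext t
      · change (1 : Tp p) = c.l * 1 * c.l⁻¹
        rw [mul_one, mul_inv_cancel]
      · change _ = c.f ((1 : Tp p) • c.l⁻¹ • t) * g * (c.f (c.l⁻¹ • t))⁻¹
        rw [one_smul]
        rfl
  · rintro ⟨x, hx, rfl⟩
    have hx' : IsConj (fun _ : Tp p => g) x := hx
    obtain ⟨c, hc⟩ := isConj_iff.1 hx'
    refine (isConj_iff.2 ⟨(WX p G).inc c, ?_⟩ : IsConj (dg p g) ((WX p G).inc x))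
    have h : dg p g = (WX p G).inc (fun _ : Tp p => g) := rfl
    rw [h, ← map_inv, ← map_mul, ← map_mul, hc]

theorem YWO_omega (p : ℕ) {G : Type} [Group G] (ψ : (Tp p → G) → ℂ) (g : G) :
    omega (ext0 (WX p G).inc ψ) (dg p g) = omega ψ (fun _ => g) := by
  have he : ∀ x, ext0 (WX p G).inc ψ ((WX p G).inc x) = ψ x := fun x =>
    (WX p G).inc_injective.extend_apply _ _ _
  unfold omega
  rw [YWO_conj, finsum_mem_image (WX p G).inc_injective.injOn]
  have h1 : ext0 (WX p G).inc ψ 1 = ψ 1 := by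
    rw [← he 1, map_one]
  rw [h1]
  simp_rw [he]

theorem YWO (hOP : Pool.Agent.helper58.DC.OP_stmt) : YWO_stmt := by
  intro p _ G _ _ χ g w
  have hc : conjugatesOf (w * dg p g * w⁻¹) = conjugatesOf (dg p g) :=
    (IsConj.conjugatesOf_eq (isConj_iff.2 ⟨w, rfl⟩)).symm
  have h : omega (ext0 (WX p G).inc (tens fun _ : Tp p => χ)) (w * dg p g * w⁻¹) =
      omega (ext0 (WX p G).inc (tens fun _ : Tp p => χ)) (dg p g) := by
    unfold omega
    rw [hc]
  rw [h, YWO_omega, hOP, Finset.prod_const, Finset.card_univ, Fintype.card_multiplicative,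
    ZMod.card]

end Pool.Agent.TY
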